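import Mathlib
import Pool.Agent.X101.Fermat

/-!
# MP_2a8a61_ag, Q1: `p(n,d) = 1` for all `n ≥ 2`, `d ≥ 3`

The coefficient vector of a form of degree `d` in `n` variables is a function `c` on the set
`Expo n d` of the exponent vectors of degree `d`; `form c` is the form, `jac c` its Jacobian ideal
and `hess c` its Hessian determinant.  The product of the discriminant and the associated form
extends to a contravariant, for all `n` and `d`.
-/

namespace Pool.Agent.Results.MP_2a8a61_ag.NoLargerExponent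

open MvPolynomial Pool.Agent.X101.Generic

variable {n d : ℕ}

/-- The partial derivatives of the form have a common zero besides the origin. -/
def Degenerate (c : Expo n d → ℂ) : Prop :=
  ∃ p : Fin n → ℂ, p ≠ 0 ∧ ∀ i, eval p (pderiv i (form c)) = 0

/-- `Δ` is the discriminant (it is unique up to a nonzero constant factor): an irreducible
polynomial function on the space of forms whose zeros are the degenerate forms. -/
def IsDiscriminant (Δ : MvPolynomial (Expo n d) ℂ) : Prop :=
  Irreducible Δ ∧ ∀ c, eval c Δ = 0 ↔ Degenerate c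

/-- `m` is the value of the associated form of `form c` at the covector `w`: the power
`(w₁ z₁ + ⋯ + wₙ zₙ)^(n (d - 2))` is `m` times the Hessian modulo the Jacobian ideal. -/
def IsAssocValue (c : Expo n d → ℂ) (w : Fin n → ℂ) (m : ℂ) : Prop :=
  (∑ i, C (w i) * X i) ^ (n * (d - 2)) - C m * hess c ∈ jac c

/-- The associated form `Φ(f)` of the form `f` with coefficient vector `c`, as a function of the
covector `w`. -/
noncomputable def assoc (c : Expo n d → ℂ) (w : Fin n → ℂ) : ℂ :=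
  Classical.epsilon (IsAssocValue c w)

/-- `Δ^k Φ` extends to a morphism from the space of the forms of degree `d` in `n` variables to
the space of the forms of degree `n (d - 2)`: there is a form `G` of degree `n (d - 2)` whose
coefficients are polynomial functions on the space of forms and which is `Δ^k Φ` on the
nondegenerate forms. -/
def Extends (Δ : MvPolynomial (Expo n d) ℂ) (k : ℤ) : Prop :=
  ∃ G : MvPolynomial (Fin n) (MvPolynomial (Expo n d) ℂ), G.IsHomogeneous (n * (d - 2)) ∧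
    ∀ c, eval c Δ ≠ 0 → ∀ w, eval w (map (eval c) G) = eval c Δ ^ k * assoc c w

/-- The number `μ_β(f)` with `z^β = μ_β(f) H_f` modulo the Jacobian ideal of the form `f` with
coefficient vector `c`. -/
noncomputable def mu (c : Expo n d → ℂ) (β : Fin n →₀ ℕ) : ℂ :=
  Classical.epsilon fun m : ℂ => monomial β 1 - C m * hess c ∈ jac c

/-- The function `g`, defined for the forms with `Δ ≠ 0`, is given there by a polynomial in the
coefficients of the form. -/
def IsPolynomialFunction (Δ : MvPolynomial (Expo n d) ℂ) (g : (Expo n d → ℂ) → ℂ) : Prop :=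
  ∃ P : MvPolynomial (Expo n d) ℂ, ∀ c, eval c Δ ≠ 0 → eval c P = g c

lemma van_of_disc {Δ : MvPolynomial (Expo n d) ℂ} (h : IsDiscriminant Δ) : Van Δ :=
  fun c hc => (h.2 c).2 hc

lemma exists_unique (hd : 2 ≤ d) {Δ : MvPolynomial (Expo n d) ℂ} (hΔ : IsDiscriminant Δ)
    {c : Expo n d → ℂ} (hc : eval c Δ ≠ 0) (β : Fin n →₀ ℕ) (hβ : ∑ i, β i = n * (d - 2)) :
    ∃! m : ℂ, monomial β 1 - C m * hess c ∈ jac c := by
  obtain ⟨g, hg⟩ := socle_spec hd (van_of_disc hΔ) β hβ
  refine ⟨(eval c Δ)⁻¹ * eval c g, ?_, ?_⟩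
  · have h1 := (jac c).mul_mem_left (C (eval c Δ)⁻¹) (hg c)
    rw [mul_sub, C_mul_monomial, inv_mul_cancel₀ hc, ← mul_assoc, ← C_mul] at h1
    exact h1
  · intro m hm
    have h1 := (jac c).mul_mem_left (C (eval c Δ)⁻¹) (hg c)
    rw [mul_sub, C_mul_monomial, inv_mul_cancel₀ hc, ← mul_assoc, ← C_mul] at h1
    have h2 := (jac c).sub_mem h1 hm
    by_contra hne
    apply hess_notMem hd (van_of_disc hΔ) hc
    have h3 := (jac c).mul_mem_left (C (m - (eval c Δ)⁻¹ * eval c g)⁻¹) h2
    have h4 : m - (eval c Δ)⁻¹ * eval c g ≠ 0 := sub_ne_zero.2 hne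
    have h5 : (monomial β 1 - C ((eval c Δ)⁻¹ * eval c g) * hess c)
        - (monomial β 1 - C m * hess c) = C (m - (eval c Δ)⁻¹ * eval c g) * hess c := by
      rw [C_sub]; ring
    rw [h5, ← mul_assoc, ← C_mul, inv_mul_cancel₀ h4, C_1, one_mul] at h3
    exact h3

lemma mu_eq (hd : 2 ≤ d) {Δ : MvPolynomial (Expo n d) ℂ} (hΔ : IsDiscriminant Δ)
    {c : Expo n d → ℂ} (hc : eval c Δ ≠ 0) (β : Fin n →₀ ℕ) (hβ : ∑ i, β i = n * (d - 2)) {m : ℂ}
    (hm : monomial β 1 - C m * hess c ∈ jac c) : mu c β = m := by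
  have h := exists_unique hd hΔ hc β hβ
  have h1 : monomial β 1 - C (mu c β) * hess c ∈ jac c :=
    Classical.epsilon_spec (p := fun m : ℂ => monomial β 1 - C m * hess c ∈ jac c) h.exists
  exact h.unique h1 hm

/-- `Δ μ_β` is a polynomial function -/
lemma upper (hd : 2 ≤ d) {Δ : MvPolynomial (Expo n d) ℂ} (hΔ : IsDiscriminant Δ)
    (β : Fin n →₀ ℕ) (hβ : ∑ i, β i = n * (d - 2)) :
    IsPolynomialFunction Δ fun c => eval c Δ ^ (1 : ℤ) * mu c β := by
  obtain ⟨g, hg⟩ := socle_spec hd (van_of_disc hΔ) β hβ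
  refine ⟨g, fun c hc => ?_⟩
  have h1 := (jac c).mul_mem_left (C (eval c Δ)⁻¹) (hg c)
  rw [mul_sub, C_mul_monomial, inv_mul_cancel₀ hc, ← mul_assoc, ← C_mul] at h1
  have h2 := mu_eq hd hΔ hc β hβ h1
  simp only [h2, zpow_one]
  rw [mul_inv_cancel_left₀ hc]

/-! ### Scaling -/

lemma form_smul (t : ℂ) (c : Expo n d → ℂ) : form (t • c) = C t * form c := by
  unfold form
  rw [Finset.mul_sum]
  refine Finset.sum_congr rfl fun α _ => ?_
  rw [C_mul_monomial]
  rfl

lemma jac_smul {t : ℂ} (ht : t ≠ 0) (c : Expo n d → ℂ) : jac (t • c) = jac c := by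
  unfold jac
  apply le_antisymm
  · rw [Ideal.span_le]
    rintro _ ⟨i, rfl⟩
    change pderiv i (form (t • c)) ∈ Ideal.span (Set.range fun i => pderiv i (form c))
    rw [form_smul, pderiv_C_mul]
    exact Ideal.mul_mem_left _ _ (Ideal.subset_span ⟨i, rfl⟩)
  · rw [Ideal.span_le]
    rintro _ ⟨i, rfl⟩
    change pderiv i (form c) ∈ Ideal.span (Set.range fun i => pderiv i (form (t • c)))
    have h1 : pderiv i (form c) = C t⁻¹ * pderiv i (form (t • c)) := by
      rw [form_smul, pderiv_C_mul, ← mul_assoc, ← C_mul, inv_mul_cancel₀ ht, C_1, one_mul]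
    rw [h1]
    exact Ideal.mul_mem_left _ _ (Ideal.subset_span ⟨i, rfl⟩)

lemma hess_smul (t : ℂ) (c : Expo n d → ℂ) : hess (t • c) = C (t ^ n) * hess c := by
  unfold hess
  have h1 : (Matrix.of fun i j => pderiv i (pderiv j (form (t • c))))
      = (C t : MvPolynomial (Fin n) ℂ) • Matrix.of fun i j => pderiv i (pderiv j (form c)) := by
    ext1 i j
    simp only [Matrix.of_apply, Matrix.smul_apply, smul_eq_mul]
    rw [form_smul, pderiv_C_mul, pderiv_C_mul]
  rw [h1, Matrix.det_smul, Fintype.card_fin, ← C_pow]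

lemma nondeg_smul (hd : 2 ≤ d) {Δ : MvPolynomial (Expo n d) ℂ} (hΔ : IsDiscriminant Δ) {t : ℂ}
    (ht : t ≠ 0) : eval (t • cc n d) Δ ≠ 0 := by
  intro h
  obtain ⟨p, hp, hp'⟩ := (hΔ.2 _).1 h
  apply hp
  apply nondeg_cc hd p
  intro i
  have h1 := hp' i
  rw [form_smul, pderiv_C_mul, map_mul, eval_C] at h1
  rcases mul_eq_zero.1 h1 with h2 | h2
  · exact absurd h2 ht
  · exact h2

/-- no smaller power of `Δ` suffices, for any `β` -/
lemma lower (hn : 1 ≤ n) (hd : 2 ≤ d) {Δ : MvPolynomial (Expo n d) ℂ} (hΔ : IsDiscriminant Δ)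
    (β : Fin n →₀ ℕ) (hβ : ∑ i, β i = n * (d - 2)) (k : ℤ)
    (hk : IsPolynomialFunction Δ fun c => eval c Δ ^ k * mu c β) : 1 ≤ k := by
  by_contra hlt
  push Not at hlt
  obtain ⟨P, hP⟩ := hk
  obtain ⟨j, hj⟩ : ∃ j : ℕ, k = -(j : ℤ) := ⟨(-k).toNat, by omega⟩
  have h1 : eval (cc n d) Δ ≠ 0 := by
    have := nondeg_smul hd hΔ (n := n) (one_ne_zero)
    rwa [one_smul] at this
  set m := mu (cc n d) β with hm
  have hmspec : monomial β 1 - C m * hess (cc n d) ∈ jac (cc n d) :=
    Classical.epsilon_spec (p := fun m : ℂ => monomial β 1 - C m * hess (cc n d) ∈ jac (cc n d))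
      (exists_unique hd hΔ h1 β hβ).exists
  have hm0 : m ≠ 0 := by
    intro h0
    rw [h0, C_0, zero_mul, sub_zero] at hmspec
    exact monomial_notMem hd β hβ hmspec
  -- the identity for `t ≠ 0`
  have hid : ∀ t : ℂ, t ≠ 0 →
      eval (t • cc n d) P * eval (t • cc n d) Δ ^ j * t ^ n = m := by
    intro t ht
    have h2 := nondeg_smul hd hΔ (n := n) ht
    have h3 : mu (t • cc n d) β = (t ^ n)⁻¹ * m := by
      apply mu_eq hd hΔ h2 β hβ
      rw [jac_smul ht, hess_smul, ← mul_assoc, ← C_mul]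
      have : (t ^ n)⁻¹ * m * t ^ n = m := by
        have : t ^ n ≠ 0 := pow_ne_zero _ ht
        field_simp
      rw [this]
      exact hmspec
    have h4 := hP _ h2
    simp only [h3, hj, zpow_neg, zpow_natCast] at h4
    rw [h4]
    have h5 : t ^ n ≠ 0 := pow_ne_zero _ ht
    have h6 : eval (t • cc n d) Δ ^ j ≠ 0 := pow_ne_zero _ h2
    field_simp
  have hcont : Continuous fun t : ℂ =>
      eval (t • cc n d) P * eval (t • cc n d) Δ ^ j * t ^ n := by
    have h2 : Continuous fun t : ℂ => t • cc n d := by fun_prop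
    have h3 : ∀ Q : MvPolynomial (Expo n d) ℂ, Continuous fun t : ℂ => eval (t • cc n d) Q :=
      fun Q => (MvPolynomial.continuous_eval Q).comp h2
    exact ((h3 P).mul ((h3 Δ).pow j)).mul (continuous_id.pow n)
  have heq : (fun t : ℂ => eval (t • cc n d) P * eval (t • cc n d) Δ ^ j * t ^ n)
      = fun _ => m :=
    hcont.ext_on (dense_compl_singleton (0 : ℂ)) continuous_const fun t ht => hid t ht
  have h0 := congrFun heq 0
  simp only [zero_pow (by omega : n ≠ 0), mul_zero] at h0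
  exact hm0 h0.symm


/-! ### The associated form -/

/-- the exponent vector attached to a function with sum `n (d-2)` -/
lemma mon_eq (k : Fin n → ℕ) :
    ∏ i, (X i : MvPolynomial (Fin n) ℂ) ^ k i = monomial (Finsupp.equivFunOnFinite.symm k) 1 := by
  rw [monomial_eq, C_1, one_mul, Finsupp.prod_fintype _ _ (fun i => pow_zero _)]
  rfl

lemma pow_expand (w : Fin n → ℂ) (N : ℕ) :
    (∑ i, C (w i) * X i : MvPolynomial (Fin n) ℂ) ^ N
      = ∑ k ∈ Finset.univ.piAntidiag N,
        C ((Nat.multinomial Finset.univ k : ℂ) * ∏ i, w i ^ k i) *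
          monomial (Finsupp.equivFunOnFinite.symm k) 1 := by
  rw [Finset.sum_pow_eq_sum_piAntidiag]
  refine Finset.sum_congr rfl fun k _ => ?_
  rw [← mon_eq]
  simp only [mul_pow, Finset.prod_mul_distrib, C_mul, map_prod, map_pow, map_natCast]
  ring

lemma sum_symm (k : Fin n → ℕ) : ∑ i, (Finsupp.equivFunOnFinite.symm k) i = ∑ i, k i := rfl

/-- the coefficients of the extension -/
lemma exists_ext (hd : 2 ≤ d) {Δ : MvPolynomial (Expo n d) ℂ} (hΔ : IsDiscriminant Δ) :
    ∃ G : MvPolynomial (Fin n) (MvPolynomial (Expo n d) ℂ), G.IsHomogeneous (n * (d - 2)) ∧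
      ∀ c w, C (eval c Δ) * (∑ i, C (w i) * X i) ^ (n * (d - 2))
        - C (eval w (map (eval c) G)) * hess c ∈ jac c := by
  classical
  have key : ∀ k : Fin n → ℕ, ∃ g : MvPolynomial (Expo n d) ℂ,
      k ∈ (Finset.univ : Finset (Fin n)).piAntidiag (n * (d - 2)) → ∀ c : Expo n d → ℂ,
        monomial (Finsupp.equivFunOnFinite.symm k) (eval c Δ) - C (eval c g) * hess c ∈ jac c := by
    intro k
    by_cases hk : k ∈ (Finset.univ : Finset (Fin n)).piAntidiag (n * (d - 2))
    · have hs : ∑ i, (Finsupp.equivFunOnFinite.symm k) i = n * (d - 2) := by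
        rw [sum_symm]
        exact (Finset.mem_piAntidiag.1 hk).1
      obtain ⟨g, hg⟩ := socle_spec hd (van_of_disc hΔ) _ hs
      exact ⟨g, fun _ => hg⟩
    · exact ⟨0, fun h => absurd h hk⟩
  choose g hg using key
  refine ⟨∑ k ∈ (Finset.univ : Finset (Fin n)).piAntidiag (n * (d - 2)),
    monomial (Finsupp.equivFunOnFinite.symm k) (C (Nat.multinomial Finset.univ k : ℂ) * g k),
    ?_, ?_⟩
  · refine IsHomogeneous.sum _ _ _ fun k hk => ?_
    refine isHomogeneous_monomial _ ?_
    rw [Finsupp.degree_eq_sum, sum_symm]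
    exact (Finset.mem_piAntidiag.1 hk).1
  · intro c w
    rw [pow_expand, map_sum, map_sum, Finset.mul_sum, map_sum, Finset.sum_mul,
      ← Finset.sum_sub_distrib]
    refine Ideal.sum_mem _ fun k hk => ?_
    have h1 := (jac c).mul_mem_left
      (C ((Nat.multinomial Finset.univ k : ℂ) * ∏ i, w i ^ k i)) (hg k hk c)
    convert h1 using 1
    have h2 : (monomial (Finsupp.equivFunOnFinite.symm k) (eval c Δ) : MvPolynomial (Fin n) ℂ)
        = C (eval c Δ) * monomial (Finsupp.equivFunOnFinite.symm k) 1 := by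
      rw [C_mul_monomial, mul_one]
    have h3 : eval w (map (eval c) (monomial (Finsupp.equivFunOnFinite.symm k)
        (C (Nat.multinomial Finset.univ k : ℂ) * g k)))
        = ((Nat.multinomial Finset.univ k : ℂ) * ∏ i, w i ^ k i) * eval c (g k) := by
      rw [map_monomial, eval_monomial, map_mul, eval_C,
        Finsupp.prod_fintype _ _ (fun i => pow_zero _)]
      have : ∀ i, (Finsupp.equivFunOnFinite.symm k) i = k i := fun i => rfl
      simp only [this]
      ring
    rw [h2, h3, C_mul (a' := eval c (g k))]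
    ring

lemma existsUnique_assoc (hd : 2 ≤ d) {Δ : MvPolynomial (Expo n d) ℂ} (hΔ : IsDiscriminant Δ)
    {c : Expo n d → ℂ} (hc : eval c Δ ≠ 0) (w : Fin n → ℂ) : ∃! m : ℂ, IsAssocValue c w m := by
  obtain ⟨G, -, hG⟩ := exists_ext hd hΔ
  refine ⟨(eval c Δ)⁻¹ * eval w (map (eval c) G), ?_, ?_⟩
  · have h1 := (jac c).mul_mem_left (C (eval c Δ)⁻¹) (hG c w)
    rw [mul_sub, ← mul_assoc, ← C_mul, inv_mul_cancel₀ hc, C_1, one_mul, ← mul_assoc,
      ← C_mul] at h1
    exact h1
  · intro m hm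
    have h1 := (jac c).mul_mem_left (C (eval c Δ)⁻¹) (hG c w)
    rw [mul_sub, ← mul_assoc, ← C_mul, inv_mul_cancel₀ hc, C_1, one_mul, ← mul_assoc,
      ← C_mul] at h1
    have h2 := (jac c).sub_mem h1 hm
    by_contra hne
    apply hess_notMem hd (van_of_disc hΔ) hc
    have h3 := (jac c).mul_mem_left
      (C (m - (eval c Δ)⁻¹ * eval w (map (eval c) G))⁻¹) h2
    have h4 : m - (eval c Δ)⁻¹ * eval w (map (eval c) G) ≠ 0 := sub_ne_zero.2 hne
    have h5 : ((∑ i, C (w i) * X i) ^ (n * (d - 2))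
          - C ((eval c Δ)⁻¹ * eval w (map (eval c) G)) * hess c)
        - ((∑ i, C (w i) * X i) ^ (n * (d - 2)) - C m * hess c)
          = C (m - (eval c Δ)⁻¹ * eval w (map (eval c) G)) * hess c := by
      rw [C_sub]; ring
    rw [h5, ← mul_assoc, ← C_mul, inv_mul_cancel₀ h4, C_1, one_mul] at h3
    exact h3

lemma assoc_eq (hd : 2 ≤ d) {Δ : MvPolynomial (Expo n d) ℂ} (hΔ : IsDiscriminant Δ)
    {c : Expo n d → ℂ} (hc : eval c Δ ≠ 0) {w : Fin n → ℂ} {m : ℂ} (hm : IsAssocValue c w m) :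
    assoc c w = m := by
  have h := existsUnique_assoc hd hΔ hc w
  exact h.unique (Classical.epsilon_spec (p := IsAssocValue c w) h.exists) hm

lemma extends_one (hd : 2 ≤ d) {Δ : MvPolynomial (Expo n d) ℂ} (hΔ : IsDiscriminant Δ) :
    Extends Δ 1 := by
  obtain ⟨G, hG1, hG⟩ := exists_ext hd hΔ
  refine ⟨G, hG1, fun c hc w => ?_⟩
  have h1 := (jac c).mul_mem_left (C (eval c Δ)⁻¹) (hG c w)
  rw [mul_sub, ← mul_assoc, ← C_mul, inv_mul_cancel₀ hc, C_1, one_mul, ← mul_assoc,
    ← C_mul] at h1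
  rw [assoc_eq hd hΔ hc (w := w) h1, zpow_one, mul_inv_cancel_left₀ hc]

lemma sum_single_eq (i : Fin n) (N : ℕ) : ∑ j, (Finsupp.single i N) j = N := by
  rw [Finset.sum_eq_single i]
  · simp
  · intro j _ hj
    rw [Finsupp.single_apply, if_neg (Ne.symm hj)]
  · simp

/-- the value of the associated form at a coordinate covector -/
lemma assoc_single (hd : 2 ≤ d) {Δ : MvPolynomial (Expo n d) ℂ} (hΔ : IsDiscriminant Δ)
    {c : Expo n d → ℂ} (hc : eval c Δ ≠ 0) (i : Fin n) :
    assoc c (Pi.single i 1) = mu c (Finsupp.single i (n * (d - 2))) := by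
  have hβ : ∑ j, (Finsupp.single i (n * (d - 2))) j = n * (d - 2) := sum_single_eq i _
  apply assoc_eq hd hΔ hc
  have h := exists_unique hd hΔ hc _ hβ
  have h1 : monomial (Finsupp.single i (n * (d - 2))) 1
      - C (mu c (Finsupp.single i (n * (d - 2)))) * hess c ∈ jac c :=
    Classical.epsilon_spec
      (p := fun m : ℂ => monomial (Finsupp.single i (n * (d - 2))) 1 - C m * hess c ∈ jac c)
      h.exists
  unfold IsAssocValue
  have h2 : (∑ j, C ((Pi.single i 1 : Fin n → ℂ) j) * X j : MvPolynomial (Fin n) ℂ) = X i := by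
    rw [Finset.sum_eq_single i]
    · simp
    · intro j _ hj
      simp [hj]
    · simp
  rw [h2, X_pow_eq_monomial]
  exact h1

/-- **`p(n,d) = 1`.** For all `n ≥ 2`, `d ≥ 3`: for every form with nonzero discriminant `Δ` the
associated form is well defined, `Δ Φ` extends to a morphism on the space of all forms, and `1` is
the smallest integer `k` such that `Δ^k Φ` extends. -/
theorem result : ∀ n d : ℕ, 2 ≤ n → 3 ≤ d → ∀ Δ : MvPolynomial (Expo n d) ℂ, IsDiscriminant Δ →
    (∀ c, eval c Δ ≠ 0 → ∀ w, ∃! m : ℂ, IsAssocValue c w m) ∧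
      IsLeast {k : ℤ | Extends Δ k} 1 := by
  intro n d hn hd Δ hΔ
  refine ⟨fun c hc w => existsUnique_assoc (by omega) hΔ hc w, extends_one (by omega) hΔ,
    fun k hk => ?_⟩
  obtain ⟨G, -, hG⟩ := hk
  have i : Fin n := ⟨0, by omega⟩
  apply lower (by omega) (by omega) hΔ (Finsupp.single i (n * (d - 2))) (sum_single_eq i _) k
  refine ⟨eval (fun j => C ((Pi.single i 1 : Fin n → ℂ) j)) G, fun c hc => ?_⟩
  show _ = eval c Δ ^ k * mu c (Finsupp.single i (n * (d - 2)))
  rw [← assoc_single (by omega) hΔ hc i, ← hG c hc]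
  rw [eval_map]
  have h : ∀ w : Fin n → ℂ, eval c (eval (fun j => C (w j)) G) = eval₂ (eval c) w G := by
    intro w
    change eval c (eval₂ (RingHom.id _) (fun j => C (w j)) G) = _
    rw [eval₂_comp_left]
    congr 1
    ext j
    simp
  exact h _

end Pool.Agent.Results.MP_2a8a61_ag.NoLargerExponent
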